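import Pool.Agent.T6.H21.JR.Rigid
import Pool.Agent.T6.H21.JR.Lp
import Pool.Agent.Results.MP_8db9c5_an.EveryFiniteGroup

/-!
# Jamesifications over strictly convex spaces are rigid

Let `Y` be a strictly convex Banach space and `y` a normalised sequence in `Y` such that sign changes
of the coefficients do not change the norm of finite linear combinations. Then `J(y)` has only the
isometries `Id` and `-Id`. More generally, every surjective linear isometry from a Jamesification
`J(x)`, `x` normalised and `1`-unconditional in any Banach space, onto `J(y)` is the canonical map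
`e_i ↦ e_i` or its negative. This applies to the unit vectors of `ℓ_p`, `1 < p < ∞`.

Outline. For a set `S` of starting points of intervals let `D_S z` be the vector of block sums of `z`;
the norm of `z` is attained by some `S`, by compactness. Let `z_j = T e_j`. An optimal `S` for
`∑ 2^(-j) z_j` is optimal for all `z_j` and has the same block vector for all of them, as the space is
strictly convex; a rank argument shows that there is only one block, which starts at the beginning.
So `T` preserves the sum functional up to sign. Assume that it does, and that `T` preserves the first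
`n` unit vectors and coordinates. An optimal set of starting points for
`∑_{j > n} 2^(-j) z_j - t z_n`, as `t` tends to zero, has a limit `S` with `D_S z_j = u` for all
`j > n`, `‖u‖ = 1`, and `D_S z_n ≠ u`. So the labels of the `e_k`, `k ≥ n`, lie on one line, hence
there is exactly one starting point `m > n`. By strict convexity the `z_j`, `j > n`, are all constant
before `m` or all constant after `m`, and counting dimensions gives the first case and `m = n + 1`.
-/

set_option autoImplicit false
open scoped ENNReal

namespace Pool.Agent.Results.MP_8db9c5_an.StrictlyConvexRigidity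

open Pool.Agent.Results.MP_8db9c5_an.NontrivialIsometry
open Pool.Agent.Results.MP_8db9c5_an.EveryFiniteGroup

/-- `x` is normalised and `1`-unconditional. -/
def NormalisedUnconditional {X : Type} [NormedAddCommGroup X] [NormedSpace ℝ X] (x : ℕ → X) :
    Prop :=
  (∀ i, ‖x i‖ = 1) ∧ OneUnconditional x

/-- The group of surjective linear isometries of every Jamesification of `x` is `{Id, -Id}`. -/
def OnlyTrivialIsometries {X : Type} [NormedAddCommGroup X] [NormedSpace ℝ X] (x : ℕ → X) : Prop :=
  ∀ (J : Type) [NormedAddCommGroup J] [NormedSpace ℝ J] [CompleteSpace J]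
    (ι : (ℕ →₀ ℝ) →ₗ[ℝ] J), IsJamesification x J ι →
    ∀ T : J ≃ₗᵢ[ℝ] J, T = LinearIsometryEquiv.refl ℝ J ∨ T = LinearIsometryEquiv.neg ℝ

/-- Every surjective linear isometry from a Jamesification of `x` onto a Jamesification of `y` is
the canonical map `e_i ↦ e_i` or its negative. -/
def OnlyCanonicalIsometries {X : Type} [NormedAddCommGroup X] [NormedSpace ℝ X] (x : ℕ → X)
    {Y : Type} [NormedAddCommGroup Y] [NormedSpace ℝ Y] (y : ℕ → Y) : Prop :=
  ∀ (J : Type) [NormedAddCommGroup J] [NormedSpace ℝ J] [CompleteSpace J]
    (ι : (ℕ →₀ ℝ) →ₗ[ℝ] J) (K : Type) [NormedAddCommGroup K] [NormedSpace ℝ K] [CompleteSpace K]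
    (κ : (ℕ →₀ ℝ) →ₗ[ℝ] K), IsJamesification x J ι → IsJamesification y K κ →
    ∀ T : J ≃ₗᵢ[ℝ] K, (∀ a, T (ι a) = κ a) ∨ (∀ a, T (ι a) = - κ a)

theorem unc_of {X : Type} [NormedAddCommGroup X] [NormedSpace ℝ X] {x : ℕ → X}
    (h : NormalisedUnconditional x) : Pool.Agent.T6.H21.JR.Unc x :=
  ⟨h.1, h.2⟩

theorem trivial_of {X : Type} [NormedAddCommGroup X] [NormedSpace ℝ X] {x : ℕ → X}
    (h : OnlyCanonicalIsometries x x) : OnlyTrivialIsometries x := by
  intro J _ _ _ ι hJ T
  rcases h J ι J ι hJ hJ T with h1 | h1
  · left
    have h2 : (T : J → J) = id := hJ.dense.equalizer T.continuous continuous_id (by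
      funext a
      exact h1 a)
    ext z
    exact congrFun h2 z
  · right
    have h2 : (T : J → J) = fun z => -z := hJ.dense.equalizer T.continuous continuous_neg (by
      funext a
      exact h1 a)
    ext z
    exact congrFun h2 z

/-- **Jamesifications over strictly convex spaces are rigid.** (1) For every normalised and
`1`-unconditional sequence `x` in a strictly convex real Banach space the Jamesification exists and
has only the isometries `Id` and `-Id`. (2) Every surjective linear isometry of a Jamesification
of a normalised `1`-unconditional sequence in any real Banach space onto such a Jamesification is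
the canonical map or its negative. (3) For `1 < p < ∞` the space `ℓ_p` is strictly convex and its
unit vectors are normalised and `1`-unconditional, so `J(e_i)` has only the isometries `±Id`. -/
theorem result :
    (∀ (X : Type) [NormedAddCommGroup X] [NormedSpace ℝ X] [CompleteSpace X]
      [StrictConvexSpace ℝ X] (x : ℕ → X), NormalisedUnconditional x →
      HasJamesification x ∧ OnlyTrivialIsometries x) ∧
    (∀ (X : Type) [NormedAddCommGroup X] [NormedSpace ℝ X] [CompleteSpace X]
      (Y : Type) [NormedAddCommGroup Y] [NormedSpace ℝ Y] [CompleteSpace Y]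
      [StrictConvexSpace ℝ Y] (x : ℕ → X) (y : ℕ → Y), NormalisedUnconditional x →
      NormalisedUnconditional y → OnlyCanonicalIsometries x y) ∧
    (∀ (p : ℝ≥0∞) [Fact (1 ≤ p)], 1 < p → p ≠ ∞ →
      StrictConvexSpace ℝ (lp (fun _ : ℕ => ℝ) p) ∧
      NormalisedUnconditional (fun i : ℕ => (lp.single p i (1 : ℝ) : lp (fun _ : ℕ => ℝ) p)) ∧
      HasJamesification (fun i : ℕ => (lp.single p i (1 : ℝ) : lp (fun _ : ℕ => ℝ) p)) ∧
      OnlyTrivialIsometries (fun i : ℕ => (lp.single p i (1 : ℝ) : lp (fun _ : ℕ => ℝ) p))) := by
  have h2 : ∀ (X : Type) [NormedAddCommGroup X] [NormedSpace ℝ X] [CompleteSpace X]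
      (Y : Type) [NormedAddCommGroup Y] [NormedSpace ℝ Y] [CompleteSpace Y]
      [StrictConvexSpace ℝ Y] (x : ℕ → X) (y : ℕ → Y), NormalisedUnconditional x →
      NormalisedUnconditional y → OnlyCanonicalIsometries x y := by
    intro X _ _ _ Y _ _ _ _ x y hx hy J _ _ _ ι K _ _ _ κ hJ hK T
    exact Pool.Agent.T6.H21.JR.canonical (unc_of hx) (unc_of hy) hJ hK T
  have h1 : ∀ (X : Type) [NormedAddCommGroup X] [NormedSpace ℝ X] [CompleteSpace X]
      [StrictConvexSpace ℝ X] (x : ℕ → X), NormalisedUnconditional x →
      HasJamesification x ∧ OnlyTrivialIsometries x := by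
    intro X _ _ _ _ x hx
    exact ⟨exists_james x hx.1, trivial_of (h2 X X x x hx hx)⟩
  refine ⟨h1, h2, ?_⟩
  intro p _ hp hp'
  have h3 := Pool.Agent.T6.H21.JR.strictConvex_lp p hp hp'
  have h4 : NormalisedUnconditional
      (fun i : ℕ => (lp.single p i (1 : ℝ) : lp (fun _ : ℕ => ℝ) p)) :=
    ⟨Pool.Agent.T6.H21.JR.single_norm p hp', fun t a θ hθ =>
      Pool.Agent.T6.H21.JR.single_sign p hp' t a θ hθ⟩
  exact ⟨h3, h4, h1 _ _ h4⟩

end Pool.Agent.Results.MP_8db9c5_an.StrictlyConvexRigidity
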